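import Pool.Agent.W719.AR.Rt
import Pool.Agent.W709.RT.Main
import Pool.Agent.W349.HT.Alg
import Pool.Agent.W358.BSRot
import Pool.Agent.W358.BSVec
import Pool.Agent.W358.BSTr

/-!
# Project AR (helper719): the eigenvalues of a rotated operator
-/

set_option autoImplicit false
set_option maxHeartbeats 1000000

namespace Pool.Agent.W637.AR

open Finset Matrix Pool.Agent.H550R3.Jones
open Pool.Agent.W709.RT (kap cap cup on12_mulVec on23_mulVec on12_one on23_one F0 FF pr ui ci cas Fn Fn_eq Fn_mul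
  Fn_one Fn_newton PP UU UU_eq eval_pair kap_ne brf_ne' brf_succ' cas_sub ui_inj)
open scoped Kronecker

variable {N : ℕ}

/-- the symmetrising weights -/
noncomputable def dj (N : ℕ) (v : ℂ) (j : ℕ) : ℂ :=
  v ^ (-((j : ℤ) * ((N : ℤ) - j))) / (brf v j * brf v (N - 1 - j))

/-- the symmetrising weights on two strands -/
noncomputable def sj (v : ℂ) (N : ℕ) (p : Fin N × Fin N) : ℂ := dj N v p.1 * dj N v p.2

lemma dj_ne {v : ℂ} (hv : v ≠ 0) (hb : ∀ k : ℕ, 0 < k → k < N → br v k ≠ 0) {j : ℕ} (hj : j < N) :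
    dj N v j ≠ 0 :=
  div_ne_zero (zpow_ne_zero _ hv) (mul_ne_zero (brf_ne' hb hj) (brf_ne' hb (by omega)))

lemma sj_ne {v : ℂ} (hv : v ≠ 0) (hb : ∀ k : ℕ, 0 < k → k < N → br v k ≠ 0) (p : Fin N × Fin N) :
    sj v N p ≠ 0 := mul_ne_zero (dj_ne hv hb p.1.isLt) (dj_ne hv hb p.2.isLt)

lemma dj_FE {v : ℂ} (hv : v ≠ 0) (hb : ∀ k : ℕ, 0 < k → k < N → br v k ≠ 0) (a c : Fin N) :
    dj N v a * (irr v N).F a c = (irr v N).E c a * v ^ (-(irr v N).wt c) * dj N v c := by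
  simp only [irr]
  by_cases h : (a : ℕ) = c + 1
  · rw [if_pos h, if_pos h]
    have ha := a.isLt
    have e1 : brf v (N - 1 - (c : ℕ)) = brf v (N - 1 - (a : ℕ)) * br v ((N : ℤ) - (a : ℕ)) := by
      have e0 : N - 1 - (c : ℕ) = (N - 1 - (a : ℕ)) + 1 := by omega
      rw [e0, brf_succ']
      congr 2
      omega
    have e2 : brf v (a : ℕ) = brf v c * br v ((a : ℕ) : ℤ) := by
      rw [h, brf_succ']
      congr 1
    unfold dj
    rw [e1, e2]
    have h1 := brf_ne' (N := N) (v := v) (n := c) hb c.isLt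
    have h2 := brf_ne' (N := N) (v := v) (n := N - 1 - (a : ℕ)) hb (by omega)
    have h3 : br v ((a : ℕ) : ℤ) ≠ 0 := hb a (by omega) a.isLt
    have h4 : br v ((N : ℤ) - (a : ℕ)) ≠ 0 := by
      have := hb (N - (a : ℕ)) (by omega) (by omega)
      have e : ((N - (a : ℕ) : ℕ) : ℤ) = (N : ℤ) - (a : ℕ) := by omega
      rwa [e] at this
    have e3 : v ^ (-(((a : ℕ) : ℤ) * ((N : ℤ) - (a : ℕ)))) =
        v ^ (-((N : ℤ) - 1 - 2 * (c : ℕ))) * v ^ (-(((c : ℕ) : ℤ) * ((N : ℤ) - (c : ℕ)))) := by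
      rw [← zpow_add₀ hv]
      congr 1
      have : ((a : ℕ) : ℤ) = (c : ℕ) + 1 := by omega
      rw [this]
      ring
    rw [e3]
    field_simp
  · rw [if_neg h, if_neg h]
    ring

lemma sj_FE {v : ℂ} (hv : v ≠ 0) (hb : ∀ k : ℕ, 0 < k → k < N → br v k ≠ 0) (p q : Fin N × Fin N) :
    sj v N p * (W v N).F p q = (W v N).E q p * v ^ (-(W v N).wt q) * sj v N q := by
  obtain ⟨a, b⟩ := p
  obtain ⟨c, e⟩ := q
  have hF : (W v N).F (a, b) (c, e) = (irr v N).F a c * (1 : Matrix (Fin N) (Fin N) ℂ) b e +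
      (irr v N).K v (-1) a c * (irr v N).F b e := rfl
  have hE : (W v N).E (c, e) (a, b) = (irr v N).E c a * (irr v N).K v 1 e b +
      (1 : Matrix (Fin N) (Fin N) ℂ) c a * (irr v N).E e b := rfl
  have hw : (W v N).wt (c, e) = (irr v N).wt c + (irr v N).wt e := rfl
  have h1 := dj_FE hv hb a c
  have h2 := dj_FE hv hb b e
  have hx : v ^ (-((irr v N).wt c + (irr v N).wt e)) = v ^ (-(irr v N).wt c) * v ^ (-(irr v N).wt e) := by
    rw [← zpow_add₀ hv]
    congr 1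
    ring
  have hy : v ^ (1 * (irr v N).wt e) * v ^ (-(irr v N).wt e) = 1 := by
    rw [← zpow_add₀ hv, one_mul, add_neg_cancel, zpow_zero]
  rw [hF, hE, hw, hx]
  unfold sj WM.K
  simp only
  by_cases hac : a = c
  · by_cases hbe : b = e
    · subst hac hbe
      rw [diagonal_apply_eq, diagonal_apply_eq, Matrix.one_apply_eq, Matrix.one_apply_eq]
      have hz : v ^ (-1 * (irr v N).wt a) = v ^ (-(irr v N).wt a) := by rw [neg_one_mul]
      rw [hz]
      linear_combination (dj N v b) * h1 + v ^ (-(irr v N).wt a) * dj N v a * h2 +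
        (-(irr v N).E a a * v ^ (-(irr v N).wt a) * dj N v a * dj N v b) * hy
    · subst hac
      rw [diagonal_apply_eq, diagonal_apply_ne _ (Ne.symm hbe), Matrix.one_apply_eq, Matrix.one_apply_ne hbe]
      have hz : v ^ (-1 * (irr v N).wt a) = v ^ (-(irr v N).wt a) := by rw [neg_one_mul]
      rw [hz]
      linear_combination v ^ (-(irr v N).wt a) * dj N v a * h2
  · by_cases hbe : b = e
    · subst hbe
      rw [diagonal_apply_ne _ hac, diagonal_apply_eq, Matrix.one_apply_eq, Matrix.one_apply_ne (Ne.symm hac)]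
      linear_combination (dj N v b) * h1 +
        (-(irr v N).E c a * v ^ (-(irr v N).wt c) * dj N v c * dj N v b) * hy
    · rw [diagonal_apply_ne _ hac, diagonal_apply_ne _ (Ne.symm hbe), Matrix.one_apply_ne hbe,
        Matrix.one_apply_ne (Ne.symm hac)]
      ring

/-- symmetric with respect to the weights -/
def Sy (v : ℂ) (A : Matrix (Fin N × Fin N) (Fin N × Fin N) ℂ) : Prop :=
  ∀ p q, sj v N p * A p q = sj v N q * A q p

lemma Sy.mul {v : ℂ} {A B : Matrix (Fin N × Fin N) (Fin N × Fin N) ℂ} (hA : Sy v A) (hB : Sy v B)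
    (hAB : A * B = B * A) : Sy v (A * B) := by
  intro p q
  have h1 : (A * B) q p = (B * A) q p := by rw [hAB]
  rw [h1, Matrix.mul_apply, Matrix.mul_apply, Finset.mul_sum, Finset.mul_sum]
  apply Finset.sum_congr rfl
  intro r _
  have h2 := hA p r
  have h3 := hB r q
  linear_combination B r q * h2 + A r p * h3

lemma Sy.add {v : ℂ} {A B : Matrix (Fin N × Fin N) (Fin N × Fin N) ℂ} (hA : Sy v A) (hB : Sy v B) :
    Sy v (A + B) := by
  intro p q
  rw [Matrix.add_apply, Matrix.add_apply]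
  linear_combination hA p q + hB p q

lemma Sy.smul {v : ℂ} {A : Matrix (Fin N × Fin N) (Fin N × Fin N) ℂ} (a : ℂ) (hA : Sy v A) :
    Sy v (a • A) := by
  intro p q
  rw [Matrix.smul_apply, Matrix.smul_apply, smul_eq_mul, smul_eq_mul]
  linear_combination a * hA p q

lemma Sy.one {v : ℂ} : Sy v (1 : Matrix (Fin N × Fin N) (Fin N × Fin N) ℂ) := by
  intro p q
  by_cases h : p = q
  · rw [h]
  · rw [Matrix.one_apply_ne h, Matrix.one_apply_ne (Ne.symm h)]
    ring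

lemma Sy.diag {v : ℂ} (f : Fin N × Fin N → ℂ) : Sy v (diagonal f) := by
  intro p q
  by_cases h : p = q
  · rw [h]
  · rw [diagonal_apply_ne _ h, diagonal_apply_ne _ (Ne.symm h)]
    ring

lemma Sy.sum {v : ℂ} (s : Finset ℕ) (f : ℕ → Matrix (Fin N × Fin N) (Fin N × Fin N) ℂ)
    (h : ∀ i ∈ s, Sy v (f i)) : Sy v (∑ i ∈ s, f i) := by
  intro p q
  rw [Matrix.sum_apply, Matrix.sum_apply, Finset.mul_sum, Finset.mul_sum]
  exact Finset.sum_congr rfl fun i hi => h i hi p q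

lemma Sy.cas {v : ℂ} (hv : v ≠ 0) (hb : ∀ k : ℕ, 0 < k → k < N → br v k ≠ 0) :
    Sy v (cas v (W v N)) := by
  unfold Pool.Agent.W709.RT.cas
  refine Sy.add (Sy.add ?_ (Sy.smul _ (Sy.diag _))) (Sy.smul _ (Sy.diag _))
  intro p q
  rw [Matrix.mul_apply, Matrix.mul_apply, Finset.mul_sum, Finset.mul_sum]
  apply Finset.sum_congr rfl
  intro r _
  have h2 := sj_FE hv hb p r
  have h3 := sj_FE hv hb q r
  linear_combination (W v N).E r q * h2 - (W v N).E r p * h3

variable {u : ℂ} {φ : ∀ d : Fin N, Matrix (Fin N × Fin N) (Fin (cc N d)) ℂ}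
  {ψ : ∀ d : Fin N, Matrix (Fin (cc N d)) (Fin N × Fin N) ℂ}

lemma Fn_comm (h : IsDec u N φ ψ) (g g' : Fin N → ℂ) : Fn φ ψ g * Fn φ ψ g' = Fn φ ψ g' * Fn φ ψ g := by
  rw [← Fn_mul h, ← Fn_mul h]
  congr 1
  funext d
  ring

lemma Sy.PP (hu : u ≠ 0) (h : IsDec u N φ ψ) (hb : ∀ k : ℕ, 0 < k → k < N → br (u ^ 2) k ≠ 0) (i : ℕ) :
    Sy (u ^ 2) (Fn φ ψ (PP (u ^ 2) N i)) := by
  induction i with
  | zero =>
    have : Pool.Agent.W709.RT.PP (u ^ 2) N 0 = fun _ => 1 := by funext d; simp [Pool.Agent.W709.RT.PP]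
    rw [this, Fn_one h]
    exact Sy.one
  | succ i ih =>
    have h1 : Pool.Agent.W709.RT.PP (u ^ 2) N (i + 1) = fun d =>
        (UU (u ^ 2) N d - ui (u ^ 2) i) * Pool.Agent.W709.RT.PP (u ^ 2) N i d := by
      funext d
      unfold Pool.Agent.W709.RT.PP
      rw [Finset.prod_range_succ]
      ring
    rw [h1, Fn_mul h]
    refine Sy.mul ?_ ih (Fn_comm h _ _)
    rw [← cas_sub hu h, sub_eq_add_neg, ← neg_smul]
    exact Sy.add (Sy.cas (pow_ne_zero 2 hu) hb) (Sy.smul _ Sy.one)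

lemma Sy.Fn (hg : Gen u) (h : IsDec u N φ ψ) (g : ℕ → ℂ) :
    Sy (u ^ 2) (Fn φ ψ (fun d => g (N - 1 - d))) := by
  have hb : ∀ k : ℕ, 0 < k → k < N → br (u ^ 2) k ≠ 0 := fun k hk _ => hg.2 k hk
  rw [Fn_newton (ui_inj hg) g]
  exact Sy.sum _ _ fun i _ => Sy.smul _ (Sy.PP hg.1 h hb i)

/-! ### the pairing as a trace -/

open Pool.Agent.W719.BS (rot kw)

lemma on12_F0 (v : ℂ) (hN : 0 < N) (X : Matrix (Fin N × Fin N) (Fin N × Fin N) ℂ) (a b s : Fin N) :
    (on12 X *ᵥ F0 v N) (a, (b, s)) = X (a, b) (⟨0, hN⟩, Fin.rev s) * kap N v (Fin.rev s) := by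
  rw [on12_mulVec]
  unfold Matrix.mulVec dotProduct
  rw [Fintype.sum_prod_type, Finset.sum_eq_single (⟨0, hN⟩ : Fin N)]
  · rw [Finset.sum_eq_single (Fin.rev s)]
    · unfold F0 cup
      beta_reduce
      rw [if_pos rfl, if_pos]
      simp only [Fin.val_rev]
      have := s.isLt
      omega
    · intro z _ hz
      unfold F0 cup
      beta_reduce
      rw [if_pos rfl, if_neg, mul_zero]
      simp only
      intro hc
      apply hz
      apply Fin.ext
      rw [Fin.val_rev]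
      omega
    · intro h
      exact absurd (Finset.mem_univ _) h
  · intro z _ hz
    apply Finset.sum_eq_zero
    intro y _
    unfold F0
    beta_reduce
    rw [if_neg, mul_zero]
    intro hc
    apply hz
    apply Fin.ext
    exact hc
  · intro h
    exact absurd (Finset.mem_univ _) h

lemma pr_eq (v : ℂ) (hN : 0 < N) (w : Fin N × (Fin N × Fin N) → ℂ) :
    pr v hN w = ∑ a : Fin N, (kap N v (Fin.rev a))⁻¹ * w (a, (Fin.rev a, ⟨0, hN⟩)) := by
  unfold pr
  rw [Fintype.sum_prod_type]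
  apply Finset.sum_congr rfl
  intro a _
  rw [Finset.sum_eq_single (Fin.rev a)]
  · unfold cap
    rw [if_pos]
    simp only [Fin.val_rev]
    have := a.isLt
    omega
  · intro z _ hz
    unfold cap
    rw [if_neg, zero_mul]
    simp only
    intro hc
    apply hz
    apply Fin.ext
    rw [Fin.val_rev]
    omega
  · intro h
    exact absurd (Finset.mem_univ _) h

lemma pairing (v : ℂ) (hN : 0 < N) (A X : Matrix (Fin N × Fin N) (Fin N × Fin N) ℂ) :
    pr v hN (on23 A *ᵥ (on12 X *ᵥ F0 v N)) = ∑ a : Fin N, ∑ b : Fin N, ∑ x : Fin N,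
      (kap N v (Fin.rev a))⁻¹ * (A (Fin.rev a, ⟨0, hN⟩) (b, Fin.rev x) *
        (X (a, b) (⟨0, hN⟩, x) * kap N v x)) := by
  rw [pr_eq]
  apply Finset.sum_congr rfl
  intro a _
  rw [on23_mulVec]
  unfold Matrix.mulVec dotProduct
  rw [Fintype.sum_prod_type, Finset.mul_sum]
  apply Finset.sum_congr rfl
  intro b _
  rw [Finset.mul_sum, ← Equiv.sum_comp (Fin.revPerm)]
  apply Finset.sum_congr rfl
  intro x _
  have := on12_F0 v hN X a b (Fin.rev x)
  rw [Fin.revPerm_apply]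
  change (kap N v (Fin.rev a))⁻¹ * (A (Fin.rev a, ⟨0, hN⟩) (b, Fin.rev x) *
    (on12 X *ᵥ F0 v N) (a, (b, Fin.rev x))) = _
  rw [this, Fin.rev_rev]

lemma trace_eq (v : ℂ) (hN : 0 < N) (A X : Matrix (Fin N × Fin N) (Fin N × Fin N) ℂ) :
    ptr (kw N v) (X * rot N v A) ⟨0, hN⟩ ⟨0, hN⟩ = ∑ a : Fin N, ∑ b : Fin N, ∑ x : Fin N,
      kw N v x * (X (⟨0, hN⟩, x) (a, b) * (Pool.Agent.W719.BS.cup N v a / Pool.Agent.W719.BS.cup N v x *
        A (b, Fin.rev x) (Fin.rev a, ⟨0, hN⟩))) := by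
  unfold ptr
  have h1 : ∀ x : Fin N, kw N v x * (X * rot N v A) (⟨0, hN⟩, x) (⟨0, hN⟩, x) =
      ∑ a : Fin N, ∑ b : Fin N, kw N v x * (X (⟨0, hN⟩, x) (a, b) *
        (Pool.Agent.W719.BS.cup N v a / Pool.Agent.W719.BS.cup N v x *
        A (b, Fin.rev x) (Fin.rev a, ⟨0, hN⟩))) := by
    intro x
    rw [Matrix.mul_apply, Fintype.sum_prod_type, Finset.mul_sum]
    apply Finset.sum_congr rfl
    intro a _
    rw [Finset.mul_sum]
    rfl
  rw [Finset.sum_congr rfl fun x _ => h1 x, Finset.sum_comm]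
  apply Finset.sum_congr rfl
  intro a _
  rw [Finset.sum_comm]

lemma bcup_ne {v : ℂ} (hv : v ≠ 0) (hb : ∀ k : ℕ, 0 < k → k < N → br v k ≠ 0) {j : ℕ} (hj : j < N) :
    Pool.Agent.W719.BS.cup N v j ≠ 0 :=
  mul_ne_zero (mul_ne_zero (pow_ne_zero _ (by norm_num)) (mul_ne_zero (brf_ne' hb hj)
    (brf_ne' hb (by omega)))) (zpow_ne_zero _ hv)

lemma kap_bcup (v : ℂ) (j : ℕ) : kap N v j = Pool.Agent.W719.BS.cup N v j / brf v (N - 1) := by
  unfold Pool.Agent.W719.BS.cup kap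
  ring

lemma cst {v : ℂ} (hv : v ≠ 0) (hb : ∀ k : ℕ, 0 < k → k < N → br v k ≠ 0) {j k : ℕ}
    (h : j + k = N - 1) (hN : 0 < N) :
    Pool.Agent.W719.BS.cup N v j * Pool.Agent.W719.BS.cup N v k * (dj N v j * dj N v k) =
      (-1) ^ (N - 1) * v ^ (-(2 * ((N : ℤ) - 1))) := by
  have h1 : N - 1 - k = j := by omega
  have h2 : N - 1 - j = k := by omega
  have hs : (-1 : ℂ) ^ j * (-1) ^ k = (-1) ^ (N - 1) := by rw [← h, pow_add]
  have hj := brf_ne' (N := N) (v := v) (n := j) hb (by omega)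
  have hk := brf_ne' (N := N) (v := v) (n := k) hb (by omega)
  have hz : v ^ ((j : ℤ) * ((N : ℤ) - 2 - j)) * v ^ ((k : ℤ) * ((N : ℤ) - 2 - k)) *
      (v ^ (-((j : ℤ) * ((N : ℤ) - j))) * v ^ (-((k : ℤ) * ((N : ℤ) - k)))) =
      v ^ (-(2 * ((N : ℤ) - 1))) := by
    rw [← zpow_add₀ hv, ← zpow_add₀ hv, ← zpow_add₀ hv]
    congr 1
    have hj' : (j : ℤ) = (N : ℤ) - 1 - k := by omega
    rw [hj']
    ring
  unfold Pool.Agent.W719.BS.cup dj
  rw [h1, h2, ← hz, ← hs]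
  field_simp

lemma kwx {v : ℂ} (hv : v ≠ 0) (hb : ∀ k : ℕ, 0 < k → k < N → br v k ≠ 0) (hN : 0 < N) (x : Fin N) :
    (-1) ^ (N - 1) * kw N v x = Pool.Agent.W719.BS.cup N v x / Pool.Agent.W719.BS.cup N v (Fin.rev x) := by
  have hx := x.isLt
  have h1 := Pool.Agent.W349.HT.kap_ratio hv hb (k := x) (j := Fin.rev x)
    (by rw [Fin.val_rev]; omega) hN
  have hB := brf_ne' (N := N) (v := v) (n := N - 1) hb (by omega)
  rw [kap_bcup, kap_bcup] at h1
  unfold Pool.Agent.W719.BS.kw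
  rw [← h1]
  have := bcup_ne hv hb (j := (Fin.rev x : Fin N)) (Fin.rev x).isLt
  field_simp

lemma key {v : ℂ} (hv : v ≠ 0) (hb : ∀ k : ℕ, 0 < k → k < N → br v k ≠ 0) (hN : 0 < N)
    {A X : Matrix (Fin N × Fin N) (Fin N × Fin N) ℂ} (hA : Sy v A) (hX : Sy v X) :
    pr v hN (on23 A *ᵥ (on12 X *ᵥ F0 v N)) =
      (-1) ^ (N - 1) * ptr (kw N v) (X * rot N v A) ⟨0, hN⟩ ⟨0, hN⟩ := by
  rw [pairing, trace_eq, Finset.mul_sum]
  apply Finset.sum_congr rfl
  intro a _
  rw [Finset.mul_sum]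
  apply Finset.sum_congr rfl
  intro b _
  rw [Finset.mul_sum]
  apply Finset.sum_congr rfl
  intro x _
  have hA1 := hA (Fin.rev a, ⟨0, hN⟩) (b, Fin.rev x)
  have hX1 := hX (a, b) (⟨0, hN⟩, x)
  have hk := kwx hv hb hN x
  have hxl := x.isLt
  have hal := a.isLt
  have c1 := cst hv hb (j := a) (k := Fin.rev a) (by rw [Fin.val_rev]; omega) hN
  have c2 := cst hv hb (j := x) (k := Fin.rev x) (by rw [Fin.val_rev]; omega) hN
  rw [← c2] at c1
  have hB := brf_ne' (N := N) (v := v) (n := N - 1) hb (by omega)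
  rw [kap_bcup, kap_bcup]
  have n1 := bcup_ne hv hb (j := (Fin.rev x : Fin N)) (Fin.rev x).isLt
  have n2 := bcup_ne hv hb (j := (Fin.rev a : Fin N)) (Fin.rev a).isLt
  have n3 := bcup_ne hv hb (j := x) x.isLt
  have n4 := bcup_ne hv hb (j := a) a.isLt
  have d1 := dj_ne hv hb (j := (Fin.rev x : Fin N)) (Fin.rev x).isLt
  have d2 := dj_ne hv hb (j := (Fin.rev a : Fin N)) (Fin.rev a).isLt
  have d3 := dj_ne hv hb (j := x) x.isLt
  have d4 := dj_ne hv hb (j := a) a.isLt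
  have d5 := dj_ne hv hb (j := b) b.isLt
  have d6 := dj_ne hv hb (j := 0) hN
  unfold sj at hA1 hX1
  simp only at hA1 hX1
  generalize Pool.Agent.W719.BS.cup N v (Fin.rev x : Fin N) = Crx at *
  generalize Pool.Agent.W719.BS.cup N v (Fin.rev a : Fin N) = Cra at *
  generalize Pool.Agent.W719.BS.cup N v x = Cx at *
  generalize Pool.Agent.W719.BS.cup N v a = Ca at *
  generalize dj N v (Fin.rev x : Fin N) = Drx at *
  generalize dj N v (Fin.rev a : Fin N) = Dra at *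
  generalize dj N v x = Dx at *
  generalize dj N v a = Da at *
  generalize dj N v b = Db at *
  generalize dj N v 0 = D0 at *
  generalize A (Fin.rev a, ⟨0, hN⟩) (b, Fin.rev x) = A1 at *
  generalize A (b, Fin.rev x) (Fin.rev a, ⟨0, hN⟩) = A2 at *
  generalize X (a, b) (⟨0, hN⟩, x) = X1 at *
  generalize X (⟨0, hN⟩, x) (a, b) = X2 at *
  generalize brf v (N - 1) = B at *
  have eA : A1 = Db * Drx / (Dra * D0) * A2 := by
    field_simp
    linear_combination hA1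
  have eX : X1 = D0 * Dx / (Da * Db) * X2 := by
    field_simp
    linear_combination hX1
  have e3 : (-1 : ℂ) ^ (N - 1) * (kw N v x * (X2 * (Ca / Cx * A2))) =
      ((-1 : ℂ) ^ (N - 1) * kw N v x) * (X2 * (Ca / Cx * A2)) := by ring
  rw [e3, hk, eA, eX]
  field_simp
  linear_combination (-(A2 * X2)) * c1

/-! ### the final computation -/

lemma isInt_Fn (h : IsDec u N φ ψ) (g : Fin N → ℂ) :
    IsInt (W (u ^ 2) N) (W (u ^ 2) N) (Fn φ ψ g) := by
  have h1 : ∀ d, IsInt (W (u ^ 2) N) (W (u ^ 2) N) (g d • (φ d * ψ d)) := fun d =>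
    Pool.Agent.W358.BSVec.smulInt (Pool.Agent.W358.BSVec.comp (h.psi d) (h.phi d)) (g d)
  unfold Pool.Agent.W709.RT.Fn
  refine ⟨?_, ?_, ?_⟩
  · rw [Finset.sum_mul, Finset.mul_sum]
    exact Finset.sum_congr rfl fun d _ => (h1 d).e
  · rw [Finset.sum_mul, Finset.mul_sum]
    exact Finset.sum_congr rfl fun d _ => (h1 d).f
  · intro i j hij
    rw [Matrix.sum_apply] at hij
    obtain ⟨d, _, hd⟩ := Finset.exists_ne_zero_of_sum_ne_zero hij
    exact (h1 d).k i j hd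

lemma Fn_phi (h : IsDec u N φ ψ) (g : Fin N → ℂ) (e : Fin N) : Fn φ ψ g * φ e = g e • φ e := by
  unfold Pool.Agent.W709.RT.Fn
  rw [Matrix.sum_mul, Finset.sum_eq_single e]
  · rw [Matrix.smul_mul, Matrix.mul_assoc, h.one e, Matrix.mul_one]
  · intro d _ hd
    rw [Matrix.smul_mul, Matrix.mul_assoc, h.orth d e hd, Matrix.mul_zero, smul_zero]
  · intro h
    exact absurd (Finset.mem_univ _) h

lemma dd_eq (v : ℂ) (x : ℕ → ℂ) (n : ℕ) :
    Pool.Agent.W709.RT.dd (ui v) x n = Pool.Agent.W719.AR.dd v x n := by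
  unfold Pool.Agent.W709.RT.dd Pool.Agent.W719.AR.dd Lagrange.nodalWeight
  apply Finset.sum_congr rfl
  intro k _
  rw [Finset.prod_inv_distrib, div_eq_inv_mul]
  rfl

lemma dd_delta (v : ℂ) (c n : ℕ) :
    Pool.Agent.W709.RT.dd (ui v) (fun k => if k = c then 1 else 0) n =
      if c ≤ n then (∏ j ∈ (range (n + 1)).erase c, (Pool.Agent.W711.HT.un v c -
        Pool.Agent.W711.HT.un v j))⁻¹ else 0 := by
  rw [dd_eq]
  unfold Pool.Agent.W719.AR.dd
  beta_reduce
  by_cases h : c ≤ n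
  · rw [if_pos h, Finset.sum_eq_single c]
    · rw [if_pos rfl, one_div]
    · intro k _ hk
      rw [if_neg hk, zero_div]
    · intro hc
      exfalso
      apply hc
      rw [Finset.mem_range]
      omega
  · rw [if_neg h]
    apply Finset.sum_eq_zero
    intro k hk
    rw [Finset.mem_range] at hk
    rw [if_neg (by omega), zero_div]

theorem rote : Pool.Agent.W719.AR.S_ROTE := by
  intro u hg N φ ψ h A x hA d
  have hd := d.isLt
  have hN : 0 < N := by omega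
  have hv : u ^ 2 ≠ 0 := pow_ne_zero 2 hg.1
  have hb : ∀ k : ℕ, 0 < k → k < N → br (u ^ 2) k ≠ 0 := fun k hk _ => hg.2 k hk
  have hA' : A = Fn φ ψ (fun d => x (N - 1 - d)) := Fn_eq h A _ hA
  have hInt : IsInt (W (u ^ 2) N) (W (u ^ 2) N) A := by rw [hA']; exact isInt_Fn h _
  have hrot := Pool.Agent.W358.BSRot.rot N (u ^ 2) hv hb A hInt
  have hy : ∀ e, ∃ r : ℂ, rot N (u ^ 2) A * φ e = r • φ e := fun e =>
    (Pool.Agent.W358.BSVec.vec u hg N φ ψ h e).1 _ hrot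
  choose y hy using hy
  set c : ℕ := N - 1 - (d : ℕ) with hc
  set g : ℕ → ℂ := fun k => if k = c then 1 else 0 with hgd
  set X := Fn φ ψ (fun e => g (N - 1 - e)) with hXd
  have hXr : ∀ e, (X * rot N (u ^ 2) A) * φ e = (y e * g (N - 1 - e)) • φ e := by
    intro e
    rw [Matrix.mul_assoc, hy e, Matrix.mul_smul, hXd, Fn_phi h, smul_smul]
  have htr := Pool.Agent.W358.BSTr.tr u hg N hN φ ψ h (X * rot N (u ^ 2) A)
    (fun e => y e * g (N - 1 - e)) hXr
  have h2 : ∑ e, y e * g (N - 1 - e) * br (u ^ 2) (cc N e) = y d * br (u ^ 2) (cc N d) := by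
    rw [Finset.sum_eq_single d]
    · rw [hgd]
      simp only
      rw [if_pos hc.symm, mul_one]
    · intro e _ he
      rw [hgd]
      simp only
      rw [if_neg, mul_zero, zero_mul]
      intro hce
      apply he
      apply Fin.ext
      have := e.isLt
      omega
    · intro h
      exact absurd (Finset.mem_univ _) h
  rw [h2] at htr
  have hSA : Sy (u ^ 2) A := by rw [hA']; exact Sy.Fn hg h x
  have hSX : Sy (u ^ 2) X := Sy.Fn hg h g
  have hkey := key hv hb hN hSA hSX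
  have hev := eval_pair hg.1 h hN hb (ui_inj hg) g x
  rw [← hA', ← hXd, hkey] at hev
  have hcc : ((cc N d : ℕ) : ℤ) = 2 * (c : ℤ) + 1 := by
    unfold cc
    omega
  rw [hcc] at htr
  have hbc : br (u ^ 2) (2 * (c : ℤ) + 1) ≠ 0 := by
    have := hg.2 (2 * c + 1) (by omega)
    push_cast at this
    exact this
  have hsum : ∑ i ∈ range N, Pool.Agent.W709.RT.dd (ui (u ^ 2)) g i * Pool.Agent.W709.RT.dd (ui (u ^ 2)) x i *
      ∏ l ∈ range i, ci (u ^ 2) N (l + 1) = ∑ n ∈ Ico c N, Pool.Agent.W711.HT.wn N (u ^ 2) n *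
        Pool.Agent.W719.AR.dd (u ^ 2) x n / ∏ j ∈ (range (n + 1)).erase c,
          (Pool.Agent.W711.HT.un (u ^ 2) c - Pool.Agent.W711.HT.un (u ^ 2) j) := by
    have hsub : Ico c N ⊆ range N := by
      intro i hi
      rw [Finset.mem_Ico] at hi
      exact Finset.mem_range.2 hi.2
    rw [← Finset.sum_subset hsub]
    · apply Finset.sum_congr rfl
      intro i hi
      rw [Finset.mem_Ico] at hi
      rw [hgd, dd_delta, if_pos hi.1, dd_eq, ← Pool.Agent.W349.HT.wn_ci]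
      rw [div_eq_mul_inv]
      ring
    · intro i hi hni
      rw [Finset.mem_range] at hi
      rw [Finset.mem_Ico] at hni
      rw [hgd, dd_delta, if_neg (by omega), zero_mul, zero_mul]
  rw [hsum] at hev
  rw [hy d]
  congr 1
  unfold Pool.Agent.W719.AR.rt
  rw [← hev]
  have hs : ((-1 : ℂ) ^ (N - 1)) * (-1) ^ (N - 1) = 1 := by
    rw [← pow_add, ← two_mul, pow_mul]
    norm_num
  field_simp
  linear_combination (-1 : ℂ) * htr - br (u ^ 2) (N : ℤ) *
    ptr (kw N (u ^ 2)) (X * rot N (u ^ 2) A) ⟨0, hN⟩ ⟨0, hN⟩ * hs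

end Pool.Agent.W637.AR
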